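import Pool.Agent.H17.HS.BDef

/-!
# Chains of bounded rank in binary structures: definitions
-/

set_option autoImplicit false

namespace Pool.H63.PC

open Set Function Ordinal Pool.H62.VT Pool.H62.VS Pool.H17.HS

/-- the interval between `x` and `y` in the relation `r` on `D` contains a copy of the tree of dense
choices of rank `α` -/
def Gp (r : ℕ → ℕ → Prop) (D : Set ℕ) (α : Ordinal.{0}) (x y : ℕ) : Prop :=
  ∀ β, (_h : β < α) → ∃ z ∈ D, r x z ∧ r z y ∧ Gp r D β x z ∧ Gp r D β z y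
termination_by α

/-- the order of type `t` -/
abbrev Ot (M : Str e2) (t : ℕ → Bool × Bool) : ℕ → ℕ → Prop := fun x y => x ≠ y ∧ (bs M).c x y = t

/-- the rank of `r` on `D` is less than `γ` -/
def SC (r : ℕ → ℕ → Prop) (D : Set ℕ) (γ : Ordinal.{0}) : Prop :=
  ∀ x ∈ D, ∀ y ∈ D, ¬ (r x y ∧ Gp r D γ x y)

theorem Gp_iff (r : ℕ → ℕ → Prop) (D : Set ℕ) (α : Ordinal.{0}) (x y : ℕ) :
    Gp r D α x y ↔ ∀ β < α, ∃ z ∈ D, r x z ∧ r z y ∧ Gp r D β x z ∧ Gp r D β z y := by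
  rw [Gp]

/-- `SC` depends only on the relation on `D` -/
theorem Gp_congr {r r' : ℕ → ℕ → Prop} {D : Set ℕ} (h : ∀ x ∈ D, ∀ y ∈ D, (r x y ↔ r' x y))
    (α : Ordinal.{0}) : ∀ x ∈ D, ∀ y ∈ D, (Gp r D α x y → Gp r' D α x y) := by
  induction α using WellFoundedLT.induction with
  | ind α ih =>
    intro x hx y hy h1
    rw [Gp_iff] at h1 ⊢
    intro β hβ
    obtain ⟨z, hz, h2, h3, h4, h5⟩ := h1 β hβ
    exact ⟨z, hz, (h x hx z hz).1 h2, (h z hz y hy).1 h3, ih β hβ x hx z hz h4, ih β hβ z hz y hy h5⟩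

theorem SC_congr {r r' : ℕ → ℕ → Prop} {D : Set ℕ} (h : ∀ x ∈ D, ∀ y ∈ D, (r x y ↔ r' x y))
    {γ : Ordinal.{0}} (h1 : SC r D γ) : SC r' D γ := by
  intro x hx y hy h2
  exact h1 x hx y hy ⟨(h x hx y hy).2 h2.1, Gp_congr (fun x hx y hy => (h x hx y hy).symm) γ x hx y hy h2.2⟩

end Pool.H63.PC
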