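import Mathlib

/-!
# A Cantor family of pairwise non-isomorphic subsets of the rationals
-/

set_option autoImplicit false

namespace Pool.H63.PC

open Set Function

/-- the set of points at finite distance from `x` -/
def Fd {X : Type*} [LinearOrder X] (x : X) : Set X := {y | (Icc (min x y) (max x y)).Finite}

/-- PROOF. `e` maps `Icc (min x y) (max x y)` onto `Icc (min (e x) (e y)) (max (e x) (e y))`
(`OrderIso.image_Icc`, monotone maps commute with `min` and `max`), so `Fd (e x) = e '' Fd x`;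
`Set.ncard_image_of_injective`. -/
theorem fd_iso {X Y : Type*} [LinearOrder X] [LinearOrder Y] (e : X ≃o Y) (x : X) :
    (Fd (e x)).ncard = (Fd x).ncard := by
  have h : Fd (e x) = e '' Fd x := by
    ext y
    obtain ⟨y', rfl⟩ := e.surjective y
    have h1 : Icc (min (e x) (e y')) (max (e x) (e y')) = e '' Icc (min x y') (max x y') := by
      rw [e.image_Icc, e.monotone.map_min, e.monotone.map_max]
    have h2 : (e y' ∈ e '' Fd x) ↔ y' ∈ Fd x := e.injective.mem_set_image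
    rw [h2]
    unfold Fd
    rw [mem_ofPred_eq, mem_ofPred_eq, h1, Set.finite_image_iff e.injective.injOn]
  rw [h, Set.ncard_image_of_injective _ e.injective]

/-- The order in which the family lives: `ℕ` blocks, each of them a copy of the rationals followed by a copy of `ℕ`. -/
abbrev Bk : Type := ℕ ×ₗ (ℚ ⊕ₗ ℕ)

/-- the members of the family: in the block number `i` all rationals and, if `s i = true`, the first
`i + 2` points of `ℕ` -/
def Ss (s : ℕ → Bool) : Set Bk :=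
  {p | (∃ (i : ℕ) (q : ℚ), p = toLex (i, toLex (Sum.inl q))) ∨
    ∃ i j : ℕ, p = toLex (i, toLex (Sum.inr j)) ∧ j < i + 2 ∧ s i = true}

private def bl (i : ℕ) (q : ℚ) : Bk := toLex (i, toLex (Sum.inl q))

private def br (i : ℕ) (j : ℕ) : Bk := toLex (i, toLex (Sum.inr j))

private theorem bk_cases (x : Bk) : (∃ i q, x = bl i q) ∨ ∃ i j, x = br i j := by
  obtain ⟨i, a⟩ := x
  rcases a with q | j
  · exact Or.inl ⟨i, q, rfl⟩
  · exact Or.inr ⟨i, j, rfl⟩

private theorem bl_lt_bl {i i' : ℕ} {q q' : ℚ} : bl i q < bl i' q' ↔ i < i' ∨ i = i' ∧ q < q' := by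
  unfold bl
  rw [Prod.Lex.toLex_lt_toLex]
  simp only [Sum.Lex.inl_lt_inl_iff]

private theorem bl_lt_br {i i' : ℕ} {q : ℚ} {j : ℕ} : bl i q < br i' j ↔ i ≤ i' := by
  unfold bl br
  rw [Prod.Lex.toLex_lt_toLex]
  simp only [Sum.Lex.inl_lt_inr, and_true]
  exact le_iff_lt_or_eq.symm

private theorem br_lt_bl {i i' : ℕ} {q : ℚ} {j : ℕ} : br i j < bl i' q ↔ i < i' := by
  unfold bl br
  rw [Prod.Lex.toLex_lt_toLex]
  simp only [Sum.Lex.not_inr_lt_inl, and_false, or_false]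

private theorem br_lt_br {i i' j j' : ℕ} : br i j < br i' j' ↔ i < i' ∨ i = i' ∧ j < j' := by
  unfold br
  rw [Prod.Lex.toLex_lt_toLex]
  simp only [Sum.Lex.inr_lt_inr_iff]

private theorem bl_inj {i i' : ℕ} {q q' : ℚ} (h : bl i q = bl i' q') : i = i' ∧ q = q' := by
  have h1 : ((i, toLex (Sum.inl q)) : ℕ × (ℚ ⊕ₗ ℕ)) = (i', toLex (Sum.inl q')) := h
  have h2 := (Prod.mk.inj h1).2
  have h3 : (Sum.inl q : ℚ ⊕ ℕ) = Sum.inl q' := h2
  exact ⟨(Prod.mk.inj h1).1, Sum.inl.inj h3⟩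

private theorem br_inj {i i' j j' : ℕ} (h : br i j = br i' j') : i = i' ∧ j = j' := by
  have h1 : ((i, toLex (Sum.inr j)) : ℕ × (ℚ ⊕ₗ ℕ)) = (i', toLex (Sum.inr j')) := h
  have h2 := (Prod.mk.inj h1).2
  have h3 : (Sum.inr j : ℚ ⊕ ℕ) = Sum.inr j' := h2
  exact ⟨(Prod.mk.inj h1).1, Sum.inr.inj h3⟩

private theorem bl_ne_br {i i' j : ℕ} {q : ℚ} (h : bl i q = br i' j) : False := by
  have h1 : ((i, toLex (Sum.inl q)) : ℕ × (ℚ ⊕ₗ ℕ)) = (i', toLex (Sum.inr j)) := h
  have h2 := (Prod.mk.inj h1).2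
  have h3 : (Sum.inl q : ℚ ⊕ ℕ) = Sum.inr j := h2
  exact Sum.inl_ne_inr h3

private theorem bl_mem (s : ℕ → Bool) (i : ℕ) (q : ℚ) : bl i q ∈ Ss s := Or.inl ⟨i, q, rfl⟩

private theorem br_mem {s : ℕ → Bool} {i j : ℕ} : br i j ∈ Ss s ↔ j < i + 2 ∧ s i = true := by
  constructor
  · rintro (⟨i', q, h⟩ | ⟨i', j', h, h1, h2⟩)
    · exact (bl_ne_br (i := i') (q := q) (i' := i) (j := j) h.symm).elim
    · obtain ⟨rfl, rfl⟩ := br_inj (i := i) (j := j) (i' := i') (j' := j') h
      exact ⟨h1, h2⟩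
  · rintro ⟨h1, h2⟩
    exact Or.inr ⟨i, j, rfl, h1, h2⟩

private theorem bk_between {x y : Bk} (h : x < y) : (∃ i j j', x = br i j ∧ y = br i j') ∨
    ∃ (i : ℕ) (q0 q1 : ℚ), q0 < q1 ∧ ∀ q', q0 < q' → q' < q1 → x < bl i q' ∧ bl i q' < y := by
  rcases bk_cases x with ⟨i, q, rfl⟩ | ⟨i, j, rfl⟩ <;>
    rcases bk_cases y with ⟨i', q', rfl⟩ | ⟨i', j', rfl⟩
  · right
    rcases bl_lt_bl.1 h with h1 | ⟨h1, h2⟩
    · exact ⟨i', q' - 1, q', by linarith, fun r _ h4 => ⟨bl_lt_bl.2 (Or.inl h1),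
        bl_lt_bl.2 (Or.inr ⟨rfl, h4⟩)⟩⟩
    · exact ⟨i', q, q', h2, fun r h3 h4 => ⟨bl_lt_bl.2 (Or.inr ⟨h1, h3⟩),
        bl_lt_bl.2 (Or.inr ⟨rfl, h4⟩)⟩⟩
  · right
    have h1 := bl_lt_br.1 h
    exact ⟨i, q, q + 1, by linarith, fun r h3 _ => ⟨bl_lt_bl.2 (Or.inr ⟨rfl, h3⟩),
      bl_lt_br.2 h1⟩⟩
  · right
    have h1 := br_lt_bl.1 h
    exact ⟨i', q' - 1, q', by linarith, fun r _ h4 => ⟨br_lt_bl.2 h1,
      bl_lt_bl.2 (Or.inr ⟨rfl, h4⟩)⟩⟩
  · rcases br_lt_br.1 h with h1 | ⟨h1, h2⟩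
    · right
      exact ⟨i', 0, 1, by norm_num, fun r _ _ => ⟨br_lt_bl.2 h1, bl_lt_br.2 le_rfl⟩⟩
    · left
      exact ⟨i, j, j', rfl, by rw [h1]⟩

private theorem inf_Icc {s : ℕ → Bool} {x y : Ss s} (h : x < y)
    (hn : ¬ ∃ i j j', x.1 = br i j ∧ y.1 = br i j') : (Icc x y).Infinite := by
  rcases bk_between (x := x.1) (y := y.1) h with h1 | ⟨i, q0, q1, h1, h2⟩
  · exact (hn h1).elim
  · have h3 : (Ioo q0 q1).Infinite := Ioo_infinite h1
    have h4 : InjOn (fun q => (⟨bl i q, bl_mem s i q⟩ : Ss s)) (Ioo q0 q1) := by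
      intro a _ b _ hab
      exact (bl_inj (congrArg Subtype.val hab)).2
    refine (h3.image h4).mono ?_
    rintro z ⟨q, hq, rfl⟩
    have h5 := h2 q hq.1 hq.2
    exact ⟨h5.1.le, h5.2.le⟩

private theorem fd_far {s : ℕ → Bool} {x y : Ss s} (hne : y ≠ x)
    (hn : ¬ ∃ i j j', x.1 = br i j ∧ y.1 = br i j') : y ∉ Fd x := by
  intro h
  have h' : (Icc (min x y) (max x y)).Finite := h
  rcases lt_or_gt_of_ne hne with h1 | h1
  · rw [min_eq_right h1.le, max_eq_left h1.le] at h'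
    refine inf_Icc h1 (fun ⟨i, j, j', h2, h3⟩ => hn ⟨i, j', j, h3, h2⟩) h'
  · rw [min_eq_left h1.le, max_eq_right h1.le] at h'
    exact inf_Icc h1 hn h'

private theorem fd_bl {s : ℕ → Bool} {x : Ss s} {i : ℕ} {q : ℚ} (hx : x.1 = bl i q) :
    Fd x = {x} := by
  ext y
  constructor
  · intro h
    by_contra hne
    refine fd_far hne ?_ h
    rintro ⟨i', j, j', h1, _⟩
    rw [hx] at h1
    exact bl_ne_br h1
  · rintro rfl
    show (Icc (min y y) (max y y)).Finite
    rw [min_self, max_self, Icc_self]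
    exact finite_singleton y

private theorem br_Icc {i j j' : ℕ} {z : Bk} (h1 : br i j ≤ z) (h2 : z ≤ br i j') :
    ∃ c, z = br i c := by
  rcases bk_cases z with ⟨i', q, rfl⟩ | ⟨i', c, rfl⟩
  · exfalso
    rcases h1.lt_or_eq with h3 | h3
    · rcases h2.lt_or_eq with h4 | h4
      · have h5 := br_lt_bl.1 h3
        have h6 := bl_lt_br.1 h4
        omega
      · exact bl_ne_br h4
    · exact bl_ne_br h3.symm
  · rcases h1.lt_or_eq with h3 | h3
    · rcases h2.lt_or_eq with h4 | h4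
      · have h5 := br_lt_br.1 h3
        have h6 := br_lt_br.1 h4
        have h7 : i' = i := by omega
        exact ⟨c, by rw [h7]⟩
      · obtain ⟨h5, _⟩ := br_inj h4
        exact ⟨c, by rw [h5]⟩
    · obtain ⟨h5, _⟩ := br_inj h3
      exact ⟨c, by rw [h5]⟩

private def Ti (s : ℕ → Bool) (i : ℕ) : Set (Ss s) := {z | ∃ c, z.1 = br i c}

private theorem ti_eq {s : ℕ → Bool} {i : ℕ} (hs : s i = true) :
    Ti s i = range fun c : Fin (i + 2) => (⟨br i c, br_mem.2 ⟨c.2, hs⟩⟩ : Ss s) := by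
  ext z
  constructor
  · rintro ⟨c, hc⟩
    have h1 : br i c ∈ Ss s := hc ▸ z.2
    have h2 := (br_mem.1 h1).1
    exact ⟨⟨c, h2⟩, Subtype.ext hc.symm⟩
  · rintro ⟨c, rfl⟩
    exact ⟨c, rfl⟩

private theorem fd_br {s : ℕ → Bool} {x : Ss s} {i j : ℕ} (hx : x.1 = br i j) :
    Fd x = Ti s i := by
  have hs : s i = true := (br_mem.1 (hx ▸ x.2 : br i j ∈ Ss s)).2
  ext y
  constructor
  · intro h
    by_cases hne : y = x
    · exact ⟨j, by rw [hne, hx]⟩
    · by_contra hn
      refine fd_far hne ?_ h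
      rintro ⟨i', a, b, h1, h2⟩
      rw [hx] at h1
      obtain ⟨h3, _⟩ := br_inj h1
      exact hn ⟨b, by rw [h2, h3]⟩
  · rintro ⟨c, hc⟩
    have hf : (Ti s i).Finite := by
      rw [ti_eq hs]
      exact finite_range _
    refine hf.subset ?_
    intro z hz
    have hmin : ∃ a, (min x y).1 = br i a := by
      rcases min_choice x y with h1 | h1
      · exact ⟨j, by rw [h1, hx]⟩
      · exact ⟨c, by rw [h1, hc]⟩
    have hmax : ∃ a, (max x y).1 = br i a := by
      rcases max_choice x y with h1 | h1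
      · exact ⟨j, by rw [h1, hx]⟩
      · exact ⟨c, by rw [h1, hc]⟩
    obtain ⟨a, ha⟩ := hmin
    obtain ⟨b, hb⟩ := hmax
    have h1 : (min x y).1 ≤ z.1 := hz.1
    have h2 : z.1 ≤ (max x y).1 := hz.2
    rw [ha] at h1
    rw [hb] at h2
    exact br_Icc h1 h2

private theorem ti_card {s : ℕ → Bool} {i : ℕ} (hs : s i = true) : (Ti s i).ncard = i + 2 := by
  rw [ti_eq hs]
  have h1 : Injective fun c : Fin (i + 2) => (⟨br i c, br_mem.2 ⟨c.2, hs⟩⟩ : Ss s) := by
    intro a b hab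
    exact Fin.ext (br_inj (congrArg Subtype.val hab)).2
  rw [← Set.image_univ, Set.ncard_image_of_injective _ h1, Set.ncard_univ, Nat.card_fin]

/-- PROOF. Let `x` be a point of `Ss s`. If `x = (i, inl q)`, then `Fd x = {x}`: for `y ≠ x` the interval between `x` and
`y` contains infinitely many points `(i, inl q')` (if `y < x` these with `q'` between, resp. all `q' < q`; if
`x < y` the same with `q' > q`). If `x = (i, inr j)`, `s i = true`, then `Fd x = {(i, inr j') | j' < i + 2}` with `i + 2`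
elements: if `y = (i, inr j')` then the interval is contained in this finite set; if `y < x` is another
point then the interval contains `(i, inl q')` for all large `q'`; if `y > x` is another point then `y` is in the block number
`i' > i` and the interval contains `(i', inl q')` for all small `q'`, or `y = (i', inr j')` and it
contains all of `(i', inl q')`. -/
theorem fd_Ss (s : ℕ → Bool) (n : ℕ) :
    (∃ x : Ss s, (Fd x).ncard = n + 2) ↔ s n = true := by
  constructor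
  · rintro ⟨x, hx⟩
    rcases bk_cases x.1 with ⟨i, q, h⟩ | ⟨i, j, h⟩
    · rw [fd_bl h, Set.ncard_singleton] at hx
      omega
    · have hs : s i = true := (br_mem.1 (h ▸ x.2 : br i j ∈ Ss s)).2
      rw [fd_br h, ti_card hs] at hx
      have h1 : i = n := by omega
      rw [← h1]
      exact hs
  · intro hs
    have h1 : br n 0 ∈ Ss s := br_mem.2 ⟨by omega, hs⟩
    refine ⟨⟨br n 0, h1⟩, ?_⟩
    rw [fd_br (i := n) (j := 0) rfl, ti_card hs]

/-- A Cantor family of infinite subsets of the rationals, pairwise non-isomorphic, such that the membership of a point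
depends on one coordinate only.
PROOF. `Order.embedding_from_countable_to_dense Bk ℚ` gives `f : Bk ↪o ℚ`. `S s = f '' Ss s`. Infinite: it contains the images
of `(0, inl q)`. The membership of `f (i, _)` depends on `s i` only; points outside `range f` are never members. An isomorphism
`S s ≃o S s'` gives `Ss s ≃o Ss s'` (`OrderEmbedding` restricted: `StrictMono.orderIso`-like maps), and `fd_iso`, `fd_Ss` give
`s n = true ↔ s' n = true` for all `n`. -/
theorem fam_rat : ∃ S : (ℕ → Bool) → Set ℚ, (∀ s, (S s).Infinite) ∧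
    (∀ x, ∃ i, ∀ s s' : ℕ → Bool, s i = s' i → (x ∈ S s ↔ x ∈ S s')) ∧
    ∀ s s', Nonempty (S s ≃o S s') → s = s' := by
  have hc : Countable Bk := inferInstanceAs (Countable (ℕ × (ℚ ⊕ ℕ)))
  obtain ⟨f⟩ := Order.embedding_from_countable_to_dense Bk ℚ
  refine ⟨fun s => f '' Ss s, fun s => ?_, fun x => ?_, fun s s' h => ?_⟩
  · have h1 : Injective fun q : ℚ => f (bl 0 q) := fun a b hab =>
      (bl_inj (f.injective hab)).2
    refine (Set.infinite_range_of_injective h1).mono ?_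
    rintro _ ⟨q, rfl⟩
    exact ⟨bl 0 q, bl_mem s 0 q, rfl⟩
  · by_cases hx : x ∈ range f
    · obtain ⟨y, rfl⟩ := hx
      rcases bk_cases y with ⟨i, q, rfl⟩ | ⟨i, j, rfl⟩
      · refine ⟨0, fun s s' _ => ?_⟩
        exact ⟨fun _ => ⟨_, bl_mem s' i q, rfl⟩, fun _ => ⟨_, bl_mem s i q, rfl⟩⟩
      · refine ⟨i, fun s s' hs => ?_⟩
        rw [f.injective.mem_set_image, f.injective.mem_set_image, br_mem, br_mem, hs]
    · refine ⟨0, fun s s' _ => ?_⟩
      constructor
      · rintro ⟨y, _, rfl⟩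
        exact (hx ⟨y, rfl⟩).elim
      · rintro ⟨y, _, rfl⟩
        exact (hx ⟨y, rfl⟩).elim
  · obtain ⟨e⟩ := h
    have e1 : Ss s ≃o f '' Ss s := StrictMonoOn.orderIso f (Ss s) (f.strictMono.strictMonoOn _)
    have e2 : Ss s' ≃o f '' Ss s' := StrictMonoOn.orderIso f (Ss s') (f.strictMono.strictMonoOn _)
    have e3 : Ss s ≃o Ss s' := (e1.trans e).trans e2.symm
    have key : ∀ n, s n = true ↔ s' n = true := by
      intro n
      rw [← fd_Ss s n, ← fd_Ss s' n]
      constructor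
      · rintro ⟨x, hx⟩
        exact ⟨e3 x, by rw [fd_iso e3 x, hx]⟩
      · rintro ⟨x, hx⟩
        exact ⟨e3.symm x, by rw [fd_iso e3.symm x, hx]⟩
    funext n
    have h1 := key n
    cases h2 : s n <;> cases h3 : s' n
    · rfl
    · rw [h2, h3] at h1
      exact absurd (h1.2 rfl) (by decide)
    · rw [h2, h3] at h1
      exact absurd (h1.1 rfl) (by decide)
    · rfl

end Pool.H63.PC
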