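import Pool.Agent.H62.VT.ResDet
import Pool.Agent.H62.VT.AclL
import Pool.Agent.H62.VT.Graph
import Pool.Agent.H17.HS.BDef

/-!
# Connected locally finite binary structures are determined
-/

set_option autoImplicit false

namespace Pool.H63.PC

open Set Function Ordinal Pool.H62.VT Pool.H62.VS Pool.H17.HS

variable {M : Str e2} {W : Set ℕ}

/-- PROOF. The tuple of the definition of `Adj` is `![u, v]` or `![v, u]` (`u ≠ v`). -/
theorem adj_iff {u v : ℕ} : Adj M W u v ↔ u ∈ W ∧ v ∈ W ∧ GA M u v := by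
  constructor
  · intro h
    refine ⟨h.mem_left, h.mem_right, ?_⟩
    obtain ⟨h1, n, t, h2, -, ⟨i, hi⟩, ⟨j, hj⟩⟩ := h
    refine ⟨h1, n, ?_⟩
    have hij : i ≠ j := by
      rintro rfl
      exact h1 (hi.symm.trans hj)
    change Fin 2 → ℕ at t
    have h3 : t = ![t 0, t 1] := by
      funext l
      fin_cases l <;> rfl
    change Fin 2 at i
    change Fin 2 at j
    fin_cases i <;> fin_cases j
    · exact absurd rfl hij
    · left
      rw [← hi, ← hj]
      rw [h3] at h2
      exact h2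
    · right
      rw [← hi, ← hj]
      rw [h3] at h2
      exact h2
    · exact absurd rfl hij
  · rintro ⟨h1, h2, h3, n, h4 | h4⟩
    · refine ⟨h3, n, ![u, v], h4, ?_, ⟨0, rfl⟩, ⟨1, rfl⟩⟩
      intro i
      change Fin 2 at i
      fin_cases i
      · exact h1
      · exact h2
    · refine ⟨h3, n, ![v, u], h4, ?_, ⟨1, rfl⟩, ⟨0, rfl⟩⟩
      intro i
      change Fin 2 at i
      fin_cases i
      · exact h2
      · exact h1

/-- partial isomorphisms preserve the relations of pairs -/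
theorem pi_two {M M' : Str e2} {p : Pos} (h : PI M M' p) {x x' y y' : ℕ} (hx : (x, x') ∈ p)
    (hy : (y, y') ∈ p) (n : ℕ) : M n ![x, y] = M' n ![x', y'] := by
  have h1 := h.1 n ![(x, x'), (y, y')] (fun i => by
    change Fin 2 at i
    fin_cases i
    · exact hx
    · exact hy)
  have h2 : (fun i : Fin 2 => ((![(x, x'), (y, y')] : Fin 2 → ℕ × ℕ) i).1) = ![x, y] := by
    funext i
    fin_cases i <;> rfl
  have h3 : (fun i : Fin 2 => ((![(x, x'), (y, y')] : Fin 2 → ℕ × ℕ) i).2) = ![x', y'] := by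
    funext i
    fin_cases i <;> rfl
  change M n (fun i : Fin 2 => ((![(x, x'), (y, y')] : Fin 2 → ℕ × ℕ) i).1) =
    M' n (fun i : Fin 2 => ((![(x, x'), (y, y')] : Fin 2 → ℕ × ℕ) i).2) at h1
  rw [h2, h3] at h1
  exact h1

/-- PROOF. If `w'` is in the orbit of `w` over `{v}` then the positions `(w, w')`, `(v, v)` form a partial isomorphism, so `w'` is adjacent to `v`
as `w` is: the orbit is contained in the finite set of the neighbours of `v`. -/
theorem nb_acl {v w : ℕ} (hw : w ∈ W) (hvw : GA M v w)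
    (hf : {w | w ∈ W ∧ GA M v w}.Finite) : w ∈ Acl M W 0 {v} := by
  refine ⟨hw, hf.subset ?_⟩
  rintro w' ⟨hw', h1⟩
  refine ⟨hw', ?_⟩
  have h2 := h1.pi
  have hv1 : (v, v) ∈ insert (w, w') (idOn {v}) := Or.inr ⟨rfl, rfl⟩
  have hw1 : (w, w') ∈ insert (w, w') (idOn {v}) := Or.inl rfl
  obtain ⟨h3, n, h4⟩ := hvw
  refine ⟨fun h5 => h3 ((h2.2 _ hv1 _ hw1).2 h5), n, ?_⟩
  rw [← pi_two h2 hv1 hw1 n, ← pi_two h2 hw1 hv1 n]
  exact h4

/-- PROOF. Induction along the path: `u ∈ AclL` by `subset_AclL`; step: `nb_acl` and `AclL_closed` with `X = {v}`, `β = 0`. -/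
theorem reach_acl {l : Ordinal.{0}} (hl : Good l) (hf : ∀ v ∈ W, {w | w ∈ W ∧ GA M v w}.Finite) {u v : ℕ}
    (hu : u ∈ W) (h : Relation.ReflTransGen (fun b c => GA M b c ∧ c ∈ W) u v) : v ∈ AclL M W l {u} := by
  induction h with
  | refl => exact subset_AclL hl (singleton_subset_iff.2 hu) rfl
  | tail h1 h2 ih =>
    exact AclL_closed hl (finite_singleton _) (singleton_subset_iff.2 ih) hl.1
      (nb_acl h2.2 h2.1 (hf _ (AclL_subset ih)))

/-- PROOF. `Res M W {u} l 0` (every point of `W` is in `AclL M W l {u}` by `reach_acl`); `Res.det`. -/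
theorem lf_det {l ν : Ordinal.{0}} (hl : Good l) (hν : Good ν) (hlν : l < ν)
    (hf : ∀ v ∈ W, {w | w ∈ W ∧ GA M v w}.Finite) {u : ℕ} (hu : u ∈ W)
    (hc : ∀ v ∈ W, Relation.ReflTransGen (fun b c => GA M b c ∧ c ∈ W) u v) : Det (ν + ω) M W := by
  have hr : Res M W {u} l 0 :=
    ⟨finite_singleton u, singleton_subset_iff.2 hu, fun v hv => Or.inl (reach_acl hl hf hu (hc v hv))⟩
  exact hr.det hl hν hlν hν.1

end Pool.H63.PC
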