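import Pool.Agent.H62.VT.BFBasic
import Pool.Agent.H62.VT.Main
import Pool.Agent.H17.HS.EDec
import Pool.Agent.H63.PC.Lf

/-!
# Back and forth equivalence of the encoded structures
-/

set_option autoImplicit false

namespace Pool.H63.PC

open Set Function Ordinal Pool.H62.VT Pool.H62.VS Pool.H17.HS

variable {k : ℕ} {d : Dt k} {e e' : Fin k → ℕ} {M M' : Str e2} {D D' : Set ℕ} {p : Pos}

/-- PROOF. For `(x, x'), (y, y') ∈ p`: `M n ![x, y] = M' n ![x', y']` (`PI` with the tuple `![(x, x'), (y, y')]`), so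
`(bs M).c x y = (bs M').c x' y'`; and `x = y ↔ x' = y'`. -/
theorem pi_cl (h : PI M M' p) (he : ∀ i, (e i, e' i) ∈ p) {x x' y y' : ℕ} (hx : (x, x') ∈ p)
    (hy : (y, y') ∈ p) : ClE d e M x y ↔ ClE d e' M' x' y' := by
  have hc : ∀ {u u' v v' : ℕ}, (u, u') ∈ p → (v, v') ∈ p → (bs M).c u v = (bs M').c u' v' := by
    intro u u' v v' hu hv
    funext n
    show (M n ![u, v], M n ![v, u]) = (M' n ![u', v'], M' n ![v', u'])
    rw [pi_two h hu hv n, pi_two h hv hu n]
  have heq : ∀ {u u' v v' : ℕ}, (u, u') ∈ p → (v, v') ∈ p → (u = v ↔ u' = v') := by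
    intro u u' v v' hu hv
    exact h.2 _ hu _ hv
  unfold ClE
  refine or_congr (heq hx hy) (and_congr ?_ ?_)
  · refine forall_congr' fun u => imp_congr_right fun _ => and_congr ?_ ?_
    · exact not_congr (heq hx (he u))
    · exact not_congr (heq hy (he u))
  · refine forall_congr' fun u => imp_congr_right fun _ => ?_
    rw [hc (he u) hx, hc (he u) hy]

theorem pi_isC (h : PI M M' p) (he : ∀ i, (e i, e' i) ∈ p) {x x' : ℕ} (hx : (x, x') ∈ p) (u : Fin k) :
    IsC d e M x u ↔ IsC d e' M' x' u := by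
  unfold IsC
  refine and_congr (pi_cl h he hx (he u)) ?_
  exact forall_congr' fun u' => imp_congr_right fun _ => not_congr (pi_cl h he hx (he u'))

/-- PROOF. Unfold `enc` for `t : Fin 2 → ℕ × ℕ` with `t i ∈ p`; `IsC d e M x u ↔ IsC d e' M' x' u` by `pi_cl` (as `(e u, e' u) ∈ p`);
`M n ![e u, e v] = M' n ![e' u, e' v]`; `x = e i ↔ x' = e' i`; `t 0 = t 1` on the left iff on the right. -/
theorem pi_enc (h : PI M M' p) (he : ∀ i, (e i, e' i) ∈ p) : PI (enc d e M) (enc d e' M') p := by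
  classical
  refine ⟨?_, h.2⟩
  intro s t ht
  change Fin 2 → ℕ × ℕ at t
  have h0 : ((t 0).1, (t 0).2) ∈ p := ht 0
  have h1 : ((t 1).1, (t 1).2) ∈ p := ht 1
  have heq : (t 0).1 = (t 1).1 ↔ (t 0).2 = (t 1).2 := h.2 _ h0 _ h1
  have hM : ∀ n, M n (fun i : Fin 2 => (t i).1) = M' n (fun i : Fin 2 => (t i).2) := fun n => h.1 n t ht
  have hE : ∀ (n : ℕ) (u v : Fin k), M n ![e u, e v] = M' n ![e' u, e' v] := fun n u v =>
    pi_two h (he u) (he v) n
  have hC0 : ∀ u, IsC d e M (t 0).1 u ↔ IsC d e' M' (t 0).2 u := fun u => pi_isC h he h0 u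
  have hC1 : ∀ u, IsC d e M (t 1).1 u ↔ IsC d e' M' (t 1).2 u := fun u => pi_isC h he h1 u
  have hx : ∀ u, (t 0).1 = e u ↔ (t 0).2 = e' u := fun u => h.2 _ h0 _ (he u)
  show enc d e M s (fun i : Fin 2 => (t i).1) = enc d e' M' s (fun i : Fin 2 => (t i).2)
  unfold enc
  simp only [heq, hM, hE, hC0, hC1, hx]

/-- PROOF. Induction on `α`, `pi_enc`. -/
theorem bf_enc (α : Ordinal.{0}) : ∀ p : Pos, BF M D M' D' α p → (∀ i, (e i, e' i) ∈ p) →
    BF (enc d e M) D (enc d e' M') D' α p := by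
  induction α using WellFoundedLT.induction with
  | ind α ih =>
    intro p h he
    rw [BF_iff]
    refine ⟨pi_enc h.pi he, fun β hβ => ⟨fun v hv => ?_, fun v' hv' => ?_⟩⟩
    · obtain ⟨v', hv', h1⟩ := h.forth hβ hv
      exact ⟨v', hv', ih β hβ _ h1 fun i => Or.inr (he i)⟩
    · obtain ⟨v, hv, h1⟩ := h.back hβ hv'
      exact ⟨v, hv, ih β hβ _ h1 fun i => Or.inr (he i)⟩

/-- An isomorphism of the encoded structures is an isomorphism of the structures.
PROOF. `g` of `Iso` is a permutation `σ` of `ℕ` (`BijOn g univ univ`); `IsoV σ (enc d e M) (enc d e' M')` and `dec_equiv`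
(`Y = enc d e M`, `dec_enc`) give `IsoV σ M M'`. -/
theorem iso_dec (h : Iso (enc d e M) univ (enc d e' M') univ p) : Iso M univ M' univ p := by
  obtain ⟨g, hg, hf, hp⟩ := h
  have hb : Function.Bijective g := Set.bijOn_univ.1 hg
  have h1 : IsoV (Equiv.ofBijective g hb) (enc d e M) (enc d e' M') := fun n t => hf n t fun _ => mem_univ _
  have h2 := (dec_equiv d e (by rw [dec_enc]) h1).1
  rw [dec_enc, dec_enc] at h2
  exact ⟨g, hg, fun n t _ => h2 n t, hp⟩

/-- If the encoded structure is determined then so is the structure (among the structures on `ℕ`).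
PROOF. Given a finite position `p` with `BF M univ M' univ (κ + ω) p`; `BF.forth_omega` for the finite set `range e` gives `f` with
`BF M univ M' univ (κ + 0) (p ∪ gr f (range e))`. Put `e' i = f (e i)`, `bf_enc`, `Det` for the finite position `p ∪ gr f (range e)`
(`gr_finite`), `iso_dec`, `Iso.mono`. -/
theorem det_dec {κ : Ordinal.{0}} (h : Det κ (enc d e M) univ) (hp : p.Finite)
    (hBF : BF M univ M' univ (κ + ω) p) : Iso M univ M' univ p := by
  obtain ⟨f, hf, h1⟩ := hBF.forth_omega (F := range e) (finite_range e) (subset_univ _) 0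
  have h2 : BF M univ M' univ κ (p ∪ gr f (range e)) := h1.level (by simp)
  have he : ∀ i, (e i, f (e i)) ∈ p ∪ gr f (range e) := fun i => Or.inr ⟨⟨i, rfl⟩, rfl⟩
  have h3 : BF (enc d e M) univ (enc d (fun i => f (e i)) M') univ κ (p ∪ gr f (range e)) :=
    bf_enc κ _ h2 he
  have h4 := h (enc d (fun i => f (e i)) M') univ _ (hp.union (gr_finite f (finite_range e)))
    (fun q _ => ⟨mem_univ _, mem_univ _⟩) h3
  exact (iso_dec h4).mono subset_union_left

end Pool.H63.PC
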