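import Pool.Agent.H17.HS.DecThm
import Pool.Agent.H17.HS.ESw
import Pool.Agent.H17.HS.ETl
import Pool.Agent.H63.PC.Ifc

/-!
# The chains of the encoded structure are chains of the structure
-/

set_option autoImplicit false

namespace Pool.H63.PC

open Set Function Ordinal Pool.H62.VT Pool.H62.VS Pool.H17.HS

/-- The encoding of a structure without Cantor family of substructures; the chains of the encoded structure are chains of the structure with the same
order.
PROOF. `dec_of`, `fty_of`, `cst_ex`, `sw_ex` give `A`, `E`, `L`, `D`, `k`, `d`, `e` and the formula `hs` for the relations `4 * n`;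
`tl_of` gives `TL` with `Λ = Cl (bs M) A E`. Let `v ∈ L`, `C = {w | Λ v w}`, and `t` of `Dec.lin`: `t ≠ st t`, `Ch (bs M) t C`. As in the proof of
`tl_of`: for `x ≠ y` in `C` `(bs (enc d e M)).c x y = etlLift ((bs M).c x y)`, and `etlLift` is injective. Take `t' = etlLift t`. -/
theorem enc_chains {M : Str e2} (hw : ¬ Wd (bs M)) :
    ∃ (k : ℕ) (d : Dt k) (e : Fin k → ℕ) (L : Set ℕ) (Λ : ℕ → ℕ → Prop), TL (enc d e M) L Λ ∧
      ∀ v ∈ L, ∃ t t', t ≠ (bs M).st t ∧ Ch (bs M) t {w | Λ v w} ∧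
        t' ≠ (bs (enc d e M)).st t' ∧ Ch (bs (enc d e M)) t' {w | Λ v w} ∧
        ∀ x ∈ {w | Λ v w}, ∀ y ∈ {w | Λ v w}, (Ot M t x y ↔ Ot (enc d e M) t' x y) := by
  obtain ⟨A, E, L, D, h⟩ := dec_of hw
  have hf := fty_of hw
  obtain ⟨Z, h1, h2, h3⟩ := cst_ex hf h
  obtain ⟨k, d, e, hs⟩ := sw_ex hf h h1 h2 h3
  refine ⟨k, d, e, L, Pool.H17.HS.Cl (bs M) A E, tl_of h d e hs, ?_⟩
  have heqv := cl_eqv (bs M) A E
  have hmul : ∀ s, s % 4 = 0 → s = 4 * (s / 4) := by
    intro s hs4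
    omega
  intro v hv
  obtain ⟨t, ht, hch⟩ := h.lin v hv
  have hc : ∀ x ∈ {w | Pool.H17.HS.Cl (bs M) A E v w}, ∀ y ∈ {w | Pool.H17.HS.Cl (bs M) A E v w}, x ≠ y →
      (bs (enc d e M)).c x y = etlLift ((bs M).c x y) := by
    intro x hx y hy hxy
    have hxL := h.Lcl v hv x hx
    have hyL := h.Lcl v hv y hy
    have hxyc : Pool.H17.HS.Cl (bs M) A E x y := heqv.trans (heqv.symm hx) hy
    funext s
    show (enc d e M s ![x, y], enc d e M s ![y, x]) =
      (if s % 4 = 0 then (M (s / 4) ![x, y], M (s / 4) ![y, x]) else (false, false))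
    by_cases hs4 : s % 4 = 0
    · rw [if_pos hs4]
      conv_lhs => rw [hmul s hs4]
      rw [(hs x y hxy (s / 4)).1 ⟨hxL, hxyc⟩,
        (hs y x hxy.symm (s / 4)).1 ⟨hyL, heqv.symm hxyc⟩]
    · rw [if_neg hs4, enc_off d e M s hs4 x y hxy, enc_off d e M s hs4 y x hxy.symm]
  refine ⟨t, etlLift t, ht, hch, ?_, ⟨?_, ?_⟩, ?_⟩
  · intro hcon
    rw [← etlLift_st M (enc d e M) t] at hcon
    exact ht (etlLift_inj hcon)
  · intro x hx y hy hxy
    rw [hc x hx y hy hxy, ← etlLift_st M (enc d e M) t]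
    rcases hch.1 x hx y hy hxy with h1 | h1
    · exact Or.inl (by rw [h1])
    · exact Or.inr (by rw [h1])
  · intro x hx y hy z hz hxy hyz hxz h1 h2
    rw [hc x hx y hy hxy] at h1
    rw [hc y hy z hz hyz] at h2
    rw [hc x hx z hz hxz, hch.2 x hx y hy z hz hxy hyz hxz (etlLift_inj h1) (etlLift_inj h2)]
  · intro x hx y hy
    constructor
    · rintro ⟨hxy, h4⟩
      exact ⟨hxy, by rw [hc x hx y hy hxy, h4]⟩
    · rintro ⟨hxy, h4⟩
      rw [hc x hx y hy hxy] at h4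
      exact ⟨hxy, etlLift_inj h4⟩

end Pool.H63.PC
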