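import Pool.Agent.H63.PC.MainK
import Pool.Agent.H17.HS.Final

/-!
# The dichotomy for analytic classes
-/

set_option autoImplicit false

namespace Pool.H63.PC

open Set Function Ordinal Pool.H62.VT Pool.H62.VS Pool.H17.HS

variable {a : ℕ → ℕ}

theorem noPerf_toB {K A : Set (Str a)} (ha : ∀ n, a n ≤ 2) (hA : A ⊆ K)
    (hp : ¬ ∃ P : Set (Str a), P.Nonempty ∧ Perfect P ∧
    P ⊆ K ∧ ∀ x ∈ P, ∀ y ∈ P, (∃ σ, IsoV σ x y) → x = y) : NoPerf (toB '' A) := by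
  intro k φ hφ hK h
  have h1 : ∀ s, ∃ x ∈ K, φ s = toB x := fun s => by
    obtain ⟨x, hx, h2⟩ := hK s
    exact ⟨x, hA hx, h2.symm⟩
  have h2 : ∀ s, ofB a (φ s) ∈ K ∧ toB (ofB a (φ s)) = φ s := by
    intro s
    obtain ⟨x, hx, h3⟩ := h1 s
    rw [h3, ofB_toB ha x]
    exact ⟨hx, rfl⟩
  obtain ⟨P, hne, hP, hsub, hiso⟩ := Pool.H22.VC.perfect_of_family a k (fun s => ofB a (φ s))
    ((ofB_cont a).comp hφ) (fun s s' hs => by
      obtain ⟨σ, hσ, hσ2⟩ := hs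
      refine h s s' ⟨σ, hσ, ?_⟩
      have h3 : IsoV σ (toB (ofB a (φ s))) (toB (ofB a (φ s'))) := toB_iso hσ2
      rw [(h2 s).2, (h2 s').2] at h3
      exact h3)
  refine hp ⟨P, hne, hP, fun x hx => ?_, hiso⟩
  obtain ⟨s, rfl⟩ := hsub x hx
  exact (h2 s).1

/-- The dichotomy for analytic sets all of whose members have few substructures or lie hereditarily
in the class `K`. -/
theorem final_an (ha : ∀ n, a n ≤ 2) (K A : Set (Str a)) (hA : A ⊆ K) (hK : MeasureTheory.AnalyticSet A)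
    (hx : ∀ x ∈ A, Few x ∨ ∃ F : Finset ℕ, ∀ f : ℕ → ℕ, Injective f → (∀ i ∈ F, i ∈ range f) →
      sub x f ∈ K) :
    (∃ C : Set (Str a), C.Countable ∧ ∀ x ∈ A, ∃ c ∈ C, ∃ σ, IsoV σ x c) ∨
      (∃ P : Set (Str a), P.Nonempty ∧ Perfect P ∧ P ⊆ K ∧
        ∀ x ∈ P, ∀ y ∈ P, (∃ σ, IsoV σ x y) → x = y) := by
  by_cases hp : ∃ P : Set (Str a), P.Nonempty ∧ Perfect P ∧ P ⊆ K ∧
        ∀ x ∈ P, ∀ y ∈ P, (∃ σ, IsoV σ x y) → x = y
  · exact Or.inr hp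
  · left
    have hw : ∀ N ∈ toB '' A, ¬ Wd (bs N) := by
      rintro _ ⟨x, hxK, rfl⟩ hw
      rcases hx x hxK with ⟨F, hF⟩ | ⟨F, hF⟩
      · exact hF (w_perf ha x hw F)
      · obtain ⟨P, h1, h2, h3, h4⟩ := w_perf_full ha x hw F
        refine hp ⟨P, h1, h2, fun y hy => ?_, h4⟩
        obtain ⟨f, hf1, hf2, rfl⟩ := h3 y hy
        exact hF f hf1 hf2
    obtain ⟨C, hC, h⟩ := main_k (hK.image_of_continuous (toB_cont a)) (noPerf_toB ha hA hp) hw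
    refine ⟨ofB a '' C, hC.image _, fun x hxK => ?_⟩
    obtain ⟨c, hc, σ, hσ⟩ := h (toB x) ⟨x, hxK, rfl⟩
    have hN : toB x = toB (ofB a (toB x)) := by rw [ofB_toB ha x]
    have h1 := (ofB_iso ha hN hσ).1
    rw [ofB_toB ha x] at h1
    exact ⟨ofB a c, ⟨c, hc, rfl⟩, σ, h1⟩

end Pool.H63.PC
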