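import Mathlib

/-!
# Finite colourings of the rationals
-/

set_option autoImplicit false

namespace Pool.H63.PC

open Set Function

/-- A colour is dense in some interval.
PROOF. Induction on `Z` (for all intervals): if the colour `z ∈ Z` is not dense in `Ioo a b` then there are
`a ≤ a' < b' ≤ b` such that `Ioo a' b'` contains no point of colour `z`, and `Z.erase z` works for `Ioo a' b'`. If `Z = ∅` the
interval `Ioo a b` would be empty. -/
theorem col_dense {C : Type} (f : ℚ → C) (Z : Finset C) :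
    ∀ a b : ℚ, a < b → (∀ q, a < q → q < b → f q ∈ Z) →
    ∃ z ∈ Z, ∃ a' b', a ≤ a' ∧ a' < b' ∧ b' ≤ b ∧
      ∀ c d, a' ≤ c → c < d → d ≤ b' → ∃ q, c < q ∧ q < d ∧ f q = z := by
  classical
  induction Z using Finset.strongInduction with
  | H Z ih =>
    intro a b hab hZ
    obtain ⟨q0, hq1, hq2⟩ := exists_between hab
    have hz : f q0 ∈ Z := hZ q0 hq1 hq2
    by_cases h : ∀ c d, a ≤ c → c < d → d ≤ b → ∃ q, c < q ∧ q < d ∧ f q = f q0
    · exact ⟨f q0, hz, a, b, le_rfl, hab, le_rfl, h⟩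
    · push Not at h
      obtain ⟨c, d, hc, hcd, hd, h2⟩ := h
      obtain ⟨z', hz', a', b', h3, h4, h5, h6⟩ := ih (Z.erase (f q0)) (Finset.erase_ssubset hz)
        c d hcd (fun q h7 h8 => Finset.mem_erase.2
          ⟨h2 q h7 h8, hZ q (lt_of_le_of_lt hc h7) (lt_of_lt_of_le h8 hd)⟩)
      exact ⟨z', Finset.mem_of_mem_erase hz', a', b', hc.trans h3, h4, h5.trans hd, h6⟩

/-- For every colouring of the rationals with finitely many colours there is a monochromatic copy of the rationals.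
PROOF. `col_dense` for `Ioo 0 1`; the subtype `{q | a' < q ∧ q < b' ∧ f q = z}` is densely ordered and nontrivial;
`Order.embedding_from_countable_to_dense ℚ _` composed with the inclusion. -/
theorem rat_col {C : Type} (f : ℚ → C) (h : (range f).Finite) :
    ∃ (g : ℚ ↪o ℚ) (z : C), ∀ q, f (g q) = z := by
  obtain ⟨z, _, a', b', _, hab, _, hd⟩ := col_dense f h.toFinset 0 1 zero_lt_one
    (fun q _ _ => h.mem_toFinset.2 ⟨q, rfl⟩)
  have i1 : DenselyOrdered {q : ℚ // a' < q ∧ q < b' ∧ f q = z} := ⟨fun x y hxy => by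
    obtain ⟨q, h1, h2, h3⟩ := hd x.1 y.1 x.2.1.le hxy y.2.2.1.le
    exact ⟨⟨q, x.2.1.trans h1, h2.trans y.2.2.1, h3⟩, h1, h2⟩⟩
  have i2 : Nontrivial {q : ℚ // a' < q ∧ q < b' ∧ f q = z} := by
    obtain ⟨q1, h1, h2, h3⟩ := hd a' b' le_rfl hab le_rfl
    obtain ⟨q2, h4, h5, h6⟩ := hd q1 b' h1.le h2 le_rfl
    refine ⟨⟨q1, h1, h2, h3⟩, ⟨q2, h1.trans h4, h5, h6⟩, fun he => ?_⟩
    have he' : q1 = q2 := congrArg Subtype.val he
    exact absurd he' h4.ne
  obtain ⟨g⟩ := Order.embedding_from_countable_to_dense ℚ {q : ℚ // a' < q ∧ q < b' ∧ f q = z}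
  exact ⟨g.trans (OrderEmbedding.subtype _), z, fun q => (g q).2.2.2⟩

end Pool.H63.PC
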