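import Pool.Agent.H17.HS.DecThm
import Pool.Agent.H17.HS.ECst
import Pool.Agent.H63.PC.RatF
import Pool.Agent.H63.PC.RatC

/-!
# Structures without a Cantor family of substructures contain no copy of the rationals
-/

set_option autoImplicit false

namespace Pool.H63.PC

open Set Function Pool.H62.VT Pool.H62.VS Pool.H17.HS

/-- A chain of type `ℚ` gives a Cantor family.
PROOF. `A = ∅`, `Ω s = h '' S s` with `S` of `fam_rat`. `h` is injective (if `h p = h q` with `p < q` choose `p < r < q`... or use
`hd`), so `Ω s` is infinite and `x ∈ Ω s` iff `x = h p`, `p ∈ S s` (clopen: depends on one coordinate of `s`). If `g` is an isomorphism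
from `Ω s` to `Ω s'`: for `p ∈ S s` let `e p` be the point of `S s'` with `h (e p) = g (h p)`. It is a bijection, and for `p < q` in `S s`
`b.c (h (e p)) (h (e q)) = b.c (h p) (h q) = t`, so `e p < e q` (otherwise `e q < e p` and the type would be `b.st t`). -/
theorem wd_of_rat {K : Type} {b : BS K} (t : K) (ht : t ≠ b.st t) (h : ℚ → ℕ) (hi : Injective h)
    (hh : ∀ p q, p < q → b.c (h p) (h q) = t) : Wd b := by
  obtain ⟨S, h1, h2, h3⟩ := fam_rat
  refine ⟨∅, fun s => h '' S s, fun s x hx => absurd hx (Finset.notMem_empty x),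
    fun s => (h1 s).image hi.injOn, fun x => ?_, fun s s' g hg _ => h3 s s' ?_⟩
  · by_cases hx : x ∈ range h
    · obtain ⟨p, rfl⟩ := hx
      obtain ⟨i, hi2⟩ := h2 p
      have e1 : {s : ℕ → Bool | h p ∈ h '' S s} =
          (fun s : ℕ → Bool => s i) ⁻¹' {c | ∃ s, s i = c ∧ p ∈ S s} := by
        ext s
        constructor
        · intro hs
          exact ⟨s, rfl, (hi.mem_set_image).1 hs⟩
        · rintro ⟨s', h4, h5⟩
          exact (hi.mem_set_image).2 ((hi2 s s' h4.symm).2 h5)
      rw [e1]
      exact (isClopen_discrete _).preimage (continuous_apply i)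
    · have e1 : {s : ℕ → Bool | x ∈ h '' S s} = ∅ := by
        ext s
        constructor
        · rintro ⟨p, _, hp⟩
          exact hx ⟨p, hp⟩
        · intro hs
          exact hs.elim
      rw [e1]
      exact isClopen_empty
  · obtain ⟨hbij, hc⟩ := hg
    have h4 : ∀ p : S s, ∃ q : S s', h q = g (h p) := fun p => by
      obtain ⟨q, hq, hq2⟩ := hbij.mapsTo (mem_image_of_mem h p.2)
      exact ⟨⟨q, hq⟩, hq2⟩
    choose e he using h4
    have hmono : StrictMono e := by
      intro p q hpq
      have hpq' : (p : ℚ) < q := hpq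
      have hne : h p ≠ h q := fun h5 => hpq'.ne (hi h5)
      have h5 := hc (h p) (mem_image_of_mem h p.2) (h q) (mem_image_of_mem h q.2) hne
      rw [hh _ _ hpq', ← he, ← he] at h5
      rcases lt_trichotomy (e p) (e q) with h6 | h6 | h6
      · exact h6
      · exfalso
        have h7 : g (h p) = g (h q) := by rw [← he, ← he, h6]
        exact hne (hbij.injOn (mem_image_of_mem h p.2) (mem_image_of_mem h q.2) h7)
      · exfalso
        have h7 := hh _ _ (show ((e q : S s') : ℚ) < e p from h6)
        have h8 := b.sw (h (e q)) (h (e p))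
        rw [h5, h7] at h8
        exact ht h8
    have hsurj : Surjective e := by
      intro q
      obtain ⟨x, ⟨p, hp, rfl⟩, hx⟩ := hbij.surjOn (mem_image_of_mem h q.2)
      refine ⟨⟨p, hp⟩, Subtype.ext (hi ?_)⟩
      rw [he]
      exact hx
    exact ⟨hmono.orderIsoOfSurjective e hsurj⟩

/-- In a structure without Cantor family no relation orders a set like the rationals.
PROOF. `f` is injective (`f p = f q` gives `p < q ↔ q < p`). `dec_of` (and `fty_of`, `cl_fin`) give `A`, `E`, `L`, `D` and the finite set
`Z`, with every `x` of the same colour `Cl` as a point of `Z`. By `rat_col` for the colouring `q ↦` (a chosen point `z ∈ Z` with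
`Cl (f q) z`) we may replace `f` by `f ∘ g`: all `f q` have the same colour (`cl_eqv`). Note: for `p < q` the pair
`(bs M).c (f p) (f q) n = (true, false)`, so `(bs M).c (f p) (f q) ≠ (bs M).st ((bs M).c (f p) (f q))`.
First case: `v = f 0 ∉ L`. Then no `f q` is in `L` (`Dec.Lcl`), `D (f p) (f q) = δ` is constant (`Dec.col`), and `δ = st δ`
(`Dec.sym`); by `Dec.fin` there is `q ≠ 0` with `(bs M).c v (f q) = δ`, contradiction. Second case: `v ∈ L`; `Dec.lin` gives
`t ≠ st t` with `Ch (bs M) t {y | Cl v y}`; so for `p < q` the type of `(f p, f q)` is `t` or `st t`; it is the one whose `n`-th value is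
`(true, false)` and this is the same one for all `p < q` (`t n` and `(st t) n = (t n).swap` cannot both be `(true, false)`). Apply
`wd_of_rat`. -/
theorem no_rat {M : Str e2} (hw : ¬ Wd (bs M)) (n : ℕ) (f : ℚ → ℕ) :
    ¬ ∀ p q, p ≠ q → (M n ![f p, f q] = true ↔ p < q) := by
  intro hf
  have hinj : Injective f := by
    intro p q hpq
    by_contra hne
    have h1 := hf p q hne
    have h2 := hf q p (Ne.symm hne)
    rw [hpq] at h1 h2
    rcases lt_or_gt_of_ne hne with h3 | h3
    · exact lt_asymm h3 (h2.1 (h1.2 h3))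
    · exact lt_asymm h3 (h1.1 (h2.2 h3))
  obtain ⟨A, E, L, D, hd⟩ := dec_of hw
  obtain ⟨Z, _, hZ⟩ := cl_fin (fty_of hw) hd.AE
  have heqv := cl_eqv (bs M) A E
  choose z hz hzc using fun q => hZ (f q)
  obtain ⟨g, z0, hg⟩ := rat_col z (Z.finite_toSet.subset (by
    rintro _ ⟨q, rfl⟩
    exact hz q))
  have hf' : ∀ p q, p ≠ q → (M n ![f (g p), f (g q)] = true ↔ p < q) := fun p q hpq => by
    rw [hf _ _ (fun h => hpq (g.injective h))]
    exact g.lt_iff_lt
  have hinj' : Injective fun q => f (g q) := fun p q h => g.injective (hinj h)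
  have hcl : ∀ p q, Cl (bs M) A E (f (g p)) (f (g q)) := fun p q => by
    have h1 := hzc (g p)
    have h2 := hzc (g q)
    rw [hg p] at h1
    rw [hg q] at h2
    exact heqv.trans h1 (heqv.symm h2)
  have hval : ∀ p q, p < q → (bs M).c (f (g p)) (f (g q)) n = (true, false) := fun p q hpq => by
    have h1 : M n ![f (g p), f (g q)] = true := (hf' p q hpq.ne).2 hpq
    have h2 : M n ![f (g q), f (g p)] = false := by
      rw [← Bool.not_eq_true]
      exact fun h => lt_asymm hpq ((hf' q p hpq.ne').1 h)
    show (M n ![f (g p), f (g q)], M n ![f (g q), f (g p)]) = (true, false)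
    rw [h1, h2]
  have hst : ∀ t : ℕ → Bool × Bool, t n = (true, false) → (bs M).st t n = (false, true) :=
    fun t ht => by
      show (t n).swap = (false, true)
      rw [ht]
      rfl
  have htf : ((true, false) : Bool × Bool) ≠ (false, true) := by decide
  by_cases hv : f (g 0) ∈ L
  · obtain ⟨t, ht, hch, _⟩ := hd.lin _ hv
    have h1 : ∀ p q, p < q → (bs M).c (f (g p)) (f (g q)) = t ∨
        (bs M).c (f (g p)) (f (g q)) = (bs M).st t := fun p q hpq =>
      hch _ (hcl 0 p) _ (hcl 0 q) (fun h => hpq.ne (hinj' h))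
    by_cases h2 : t n = (true, false)
    · refine hw (wd_of_rat t ht (fun q => f (g q)) hinj' fun p q hpq => ?_)
      rcases h1 p q hpq with h3 | h3
      · exact h3
      · exfalso
        have h4 := hval p q hpq
        rw [h3, hst t h2] at h4
        exact htf h4.symm
    · have ht' : (bs M).st t ≠ (bs M).st ((bs M).st t) := by
        rw [(bs M).inv]
        exact Ne.symm ht
      refine hw (wd_of_rat ((bs M).st t) ht' (fun q => f (g q)) hinj' fun p q hpq => ?_)
      rcases h1 p q hpq with h3 | h3
      · exfalso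
        have h4 := hval p q hpq
        rw [h3] at h4
        exact h2 h4
      · exact h3
  · have hD : ∀ q, D (f (g 0)) (f (g q)) = D (f (g 0)) (f (g 0)) := fun q =>
      hd.col _ _ _ _ (hcl 0 0) (hcl q 0) (fun h => hv h.1)
    have hsym := hd.sym (f (g 0)) (f (g 0)) (fun h => hv h.1)
    have hinf : ((fun q => f (g q)) '' Ioi (0 : ℚ)).Infinite :=
      (Ioi_infinite (0 : ℚ)).image hinj'.injOn
    obtain ⟨y, ⟨q, hq, rfl⟩, hy⟩ := hinf.exists_notMem_finite (hd.fin _ hv)
    have hq' : (0 : ℚ) < q := hq
    have h1 : (bs M).c (f (g 0)) (f (g q)) = D (f (g 0)) (f (g q)) := by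
      by_contra h
      exact hy ⟨fun h2 => hq'.ne' (hinj' h2), h⟩
    have h2 := hval 0 q hq'
    rw [h1, hD q] at h2
    have h3 := hst _ h2
    rw [← hsym, h2] at h3
    exact htf h3

end Pool.H63.PC
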