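import Pool.Agent.H63.PC.Lf

/-!
# Isolated chains and a locally finite part: the structure is determined
-/

set_option autoImplicit false

namespace Pool.H63.PC

open Set Function Ordinal Pool.H62.VT Pool.H62.VS Pool.H17.HS

variable {M : Str e2} {L : Set ℕ} {Λ : ℕ → ℕ → Prop}

theorem ga_symm {u v : ℕ} (h : GA M u v) : GA M v u := by
  obtain ⟨h1, n, h2⟩ := h
  exact ⟨h1.symm, n, h2.symm⟩

/-- the component of `u` in the Gaifman graph
PROOF. `adj_iff` with `W = univ`. -/
theorem cmp_eq (u : ℕ) : Cmp (Adj M univ) ∅ u = Cp M u := by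
  ext v
  constructor
  · rintro ⟨-, h⟩
    refine Relation.ReflTransGen.mono (fun b c => ?_) _ _ h
    rintro ⟨h1, -⟩
    exact (adj_iff.1 h1).2.2
  · intro h
    refine ⟨notMem_empty u, ?_⟩
    have h' : Relation.ReflTransGen (GA M) u v := h
    refine Relation.ReflTransGen.mono (fun b c => ?_) _ _ h'
    intro h1
    exact ⟨adj_iff.2 ⟨mem_univ _, mem_univ _, h1⟩, notMem_empty c⟩

/-- PROOF. `Nb_Cmp_subset`: the neighbourhood is contained in `∅`. -/
theorem cl_cmp (u : ℕ) : Pool.H62.VT.Cl (Adj M univ) (Cmp (Adj M univ) ∅ u) = Cp M u := by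
  rw [Pool.H62.VT.Cl, subset_empty_iff.1 (Nb_Cmp_subset (R := Adj M univ) (X := ∅) (u := u)), union_empty,
    cmp_eq]

/-- The component of a point of `L` is its class.
PROOF. `⊆`: along a path, by `TL.iso` (and `TL.cls`) every neighbour of a point of the class is in the class. `⊇`: for `w ≠ v` in the class the type
of the pair `(v, w)` is `t` or the reversed type with `t ≠ st t`, so some relation holds: `GA M v w`. -/
theorem cp_lin (h : TL M L Λ) {v : ℕ} (hv : v ∈ L) : Cp M v = {w | Λ v w} := by
  ext w
  constructor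
  · intro hw
    have h1 : Relation.ReflTransGen (GA M) v w := hw
    show Λ v w
    induction h1 with
    | refl => exact h.eqv.refl v
    | @tail b c h2 h3 ih =>
      have ih' : Λ v b := ih h2
      have hb : b ∈ L := h.cls v hv b ih'
      by_contra hc
      exact h.iso b hb c (fun h4 => hc (h.eqv.trans ih' h4)) h3
  · intro hw
    show Relation.ReflTransGen (GA M) v w
    by_cases hvw : v = w
    · rw [hvw]
    · refine Relation.ReflTransGen.single ⟨hvw, ?_⟩
      obtain ⟨t, ht, hch, -⟩ := h.lin v hv
      have h1 := hch v (h.eqv.refl v) w hw hvw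
      by_contra hcon
      push Not at hcon
      have h2 : (bs M).c v w = fun _ => (false, false) := by
        funext n
        show (M n ![v, w], M n ![w, v]) = (false, false)
        obtain ⟨h3, h4⟩ := hcon n
        rw [Bool.eq_false_iff.2 h3, Bool.eq_false_iff.2 h4]
      rw [h2] at h1
      have h5 : (bs M).st (fun _ => (false, false)) = fun _ => (false, false) := rfl
      apply ht
      rcases h1 with h1 | h1
      · rw [← h1, h5]
      · have h6 := (bs M).inv t
        rw [← h1, h5] at h6
        rw [← h6, h5]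

/-- The component of a point outside `L` is disjoint from `L`.
PROOF. If `w ∈ L` is in the component of `v` then (`GA` is symmetric) `v` is in the component of `w`, which is its class (`cp_lin`), contained in `L`
(`TL.cls`). -/
theorem cp_rest (h : TL M L Λ) {v : ℕ} (hv : v ∉ L) : ∀ w ∈ Cp M v, w ∉ L := by
  intro w hw hwL
  have h1 : v ∈ Cp M w := by
    have h2 : Relation.ReflTransGen (GA M) v w := hw
    have : Std.Symm (GA M) := ⟨fun _ _ h3 => ga_symm h3⟩
    exact (Relation.ReflTransGen.stdSymm (r := GA M)).symm _ _ h2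
  rw [cp_lin h hwL] at h1
  exact hv (h.cls w hwL v h1)

/-- The structure is determined if the chains are.
PROOF. `Res M univ ∅ l κ'` with `κ' = max κ (ν + ω)`: for every `u` take `X = ∅`; `cl_cmp`; if `u ∈ L` `cp_lin` and `hκ`; otherwise `lf_det` for
`W = Cp M u` (the path from `u` to `v` stays in `Cp M u`; all neighbours are finitely many by `TL.fin` and `cp_rest`). `Res.det` with `μ`. -/
theorem tl_det {κ l ν μ : Ordinal.{0}} (hl : Good l) (hν : Good ν) (hlν : l < ν) (hμ : Good μ)
    (hνμ : ν < μ) (hκμ : κ < μ) (h : TL M L Λ) (hκ : ∀ v ∈ L, Det κ M {w | Λ v w}) : Det (μ + ω) M univ := by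
  have hr : Res M univ ∅ l (max κ (ν + ω)) := by
    refine ⟨finite_empty, empty_subset _, fun u _ => Or.inr ⟨∅, finite_empty, empty_subset _, notMem_empty u, ?_⟩⟩
    rw [cl_cmp]
    by_cases hu : u ∈ L
    · rw [cp_lin h hu]
      exact (hκ u hu).mono (le_max_left _ _)
    · have hu' : u ∈ Cp M u := Relation.ReflTransGen.refl
      refine (lf_det hl hν hlν (fun v hv => ?_) hu' (fun v hv => ?_)).mono (le_max_right _ _)
      · exact (h.fin v (cp_rest h hu v hv)).subset fun w hw => hw.2
      · have h1 : Relation.ReflTransGen (GA M) u v := hv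
        clear hv
        induction h1 with
        | refl => exact Relation.ReflTransGen.refl
        | @tail b c h2 h3 ih => exact ih.tail ⟨h3, h2.tail h3⟩
  exact hr.det hl hμ (hlν.trans hνμ) (max_lt hκμ (hμ.2 ν hνμ))

end Pool.H63.PC
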