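import Pool.Agent.H63.PC.Stub
import Pool.Agent.H63.PC.NoRat
import Pool.Agent.H63.PC.EncBF
import Pool.Agent.H63.PC.EncCh
import Pool.Agent.H63.PC.TlDet

/-!
# Analytic classes of binary structures without Cantor families of substructures
-/

set_option autoImplicit false

namespace Pool.H63.PC

open Set Function Ordinal Pool.H62.VT Pool.H62.VS Pool.H17.HS

/-- The structures are determined at one level. -/
theorem det_level {K : Set (Str e2)} (hK : MeasureTheory.AnalyticSet K) (hw : ∀ x ∈ K, ¬ Wd (bs x)) :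
    ∃ κ : Ordinal.{0}, κ < ω₁ ∧ ∀ x ∈ K, ∀ y : Str e2, BF x univ y univ κ ∅ → Iso x univ y univ ∅ := by
  obtain ⟨γ, hγ, h1⟩ := chain_bd K hK fun M hM n f => no_rat (hw M hM) n f
  obtain ⟨κ, hκ, h2⟩ := scat_det hγ
  obtain ⟨l, hl, -, hl1⟩ := good_exists omega_lt_omega_one
  obtain ⟨ν, hν, hlν, hν1⟩ := good_exists hl1
  obtain ⟨μ, hμ, hmax, hμ1⟩ := good_exists (max_lt hν1 hκ)
  refine ⟨μ + ω + ω, add_lt_omega_one (add_lt_omega_one hμ1 omega_lt_omega_one) omega_lt_omega_one, ?_⟩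
  intro x hx y hxy
  obtain ⟨k, d, e, L, Λ, hTL, hch⟩ := enc_chains (hw x hx)
  refine det_dec (d := d) (e := e) (tl_det hl hν hlν hμ (lt_of_le_of_lt (le_max_left _ _) hmax)
    (lt_of_le_of_lt (le_max_right _ _) hmax) hTL ?_) Set.finite_empty hxy
  intro v hv
  obtain ⟨t, t', ht, hC, ht', hC', hO⟩ := hch v hv
  exact h2 _ t' _ ht' hC' (SC_congr hO (h1 x hx t ht _ hC))

/-- Analytic classes of binary structures without Cantor families of substructures. -/
theorem main_k {K : Set (Str e2)} (hK : MeasureTheory.AnalyticSet K) (hn : NoPerf K)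
    (hw : ∀ x ∈ K, ¬ Wd (bs x)) :
    ∃ C : Set (Str e2), C.Countable ∧ ∀ x ∈ K, ∃ c ∈ C, ∃ σ, IsoV σ x c := by
  obtain ⟨κ, hκ, hdet⟩ := det_level hK hw
  obtain ⟨T, hT, h1⟩ := morley_an K hK hn hκ
  refine ⟨T, hT, fun x hx => ?_⟩
  obtain ⟨y, hy, h2⟩ := h1 x hx
  exact ⟨y, hy, perm_of_iso (hdet x hx y h2)⟩

end Pool.H63.PC
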