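import Pool.Agent.H5.HA.Lnk

/-!
# Interface: analytic Morley theorem, boundedness, scattered orders (helper5)
-/

set_option autoImplicit false

namespace Pool.H63.PC

open Set Function Ordinal Pool.H62.VT Pool.H62.VS Pool.H17.HS

/-- Morley's theorem for analytic classes. -/
theorem morley_an {a : ℕ → ℕ} (K : Set (Str a)) (hK : MeasureTheory.AnalyticSet K) (hn : NoPerf K)
    {α : Ordinal.{0}} (hα : α < ω₁) :
    ∃ T : Set (Str a), T.Countable ∧ ∀ x ∈ K, ∃ y ∈ T, BF x univ y univ α ∅ :=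
  Pool.H5.HA.morley_an' K hK hn hα

/-- The chains in the members of an analytic class without rational relations have bounded rank. -/
theorem chain_bd (K : Set (Str e2)) (hK : MeasureTheory.AnalyticSet K)
    (hq : ∀ M ∈ K, ∀ (n : ℕ) (f : ℚ → ℕ), ¬ ∀ p q, p ≠ q → (M n ![f p, f q] = true ↔ p < q)) :
    ∃ γ : Ordinal.{0}, γ < ω₁ ∧ ∀ M ∈ K, ∀ t, t ≠ (bs M).st t → ∀ D, Ch (bs M) t D →
      SC (Ot M t) D γ :=
  Pool.H5.HA.chain_bd K hK hq

/-- Coloured chains of bounded rank are determined at one level. -/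
theorem scat_det {γ : Ordinal.{0}} (hγ : γ < ω₁) : ∃ κ : Ordinal.{0}, κ < ω₁ ∧
    ∀ (M : Str e2) (t : ℕ → Bool × Bool) (D : Set ℕ), t ≠ (bs M).st t → Ch (bs M) t D →
      SC (Ot M t) D γ → Det κ M D :=
  Pool.H5.HA.scat_det hγ

end Pool.H63.PC
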